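import Pool.Agent.X157.D.Final
import Pool.Agent.X157.W.Min
import Pool.Agent.TH167.SH.Fam

set_option autoImplicit false

/-!
# The uniform Harbourne-Hirschowitz conjecture for 11 and for 15 points: one degree, one curve

Let `n = 11` or `n = 15` and let `I_(m, d)` be the space of the forms of degree `d` with multiplicity
at least `m` at `n` points `P` of the complex projective plane.

1. For every `m ≥ 1` there are a degree `d₀` and a nonempty Zariski-open set of configurations for
   which the dimension of `I_(m, d)` is the expected one for every `d ≠ d₀`, and for `d = d₀` it is the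
   expected one, or ONE instead of zero; the second case is only possible if `3 ∣ d₀`, `√n m ≤ d₀`,
   `2 d₀ + 3 < √n (2 m + 1)` and `(d₀ + 1) (d₀ + 2) ≤ n m (m + 1)`.
2. If for very general points `P` the dimension of some `I_(m, d)` is not the expected one, then there
   are `1 ≤ m₀ ≤ m` and `d₀ ≤ d`, as in 1, such that `I_(m₀, d₀)` is spanned by ONE form `A` (and the
   expected dimension is zero), `A` has multiplicity exactly `m₀` at all points, and `A` is irreducible
   or the product of `n` irreducible forms of one degree, the form `G i` with multiplicity `x` at the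
   point `i` and `y ≠ x` at the other points. So the conjecture for 11 (or 15) points can only fail
   with a unique symmetric curve, without moving systems.

Proof: with one more simple point the systems below the threshold are empty (the degeneration of the
starting results for 11 and 15 points, in which only the monomial `(x y z) ^ (d / 3)` is left over), so
their dimension is at most one; and the reduction of every special system to one without fixed
components or to one spanned by a symmetric orbit of an irreducible curve.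
-/

namespace Pool.Agent.Results.MP_d03834_ag.ElevenAndFifteenPoints

open MvPolynomial Pool.Agent.TH167 Pool.Agent.TH167.SHDefs Pool.Agent.X157.W
  Pool.Agent.W609.CR

/-- The space of the forms of degree `d` with multiplicity at least `m` at all points has the
expected dimension. -/
def Expected {n : ℕ} (P : Fin n → Fin 2 → ℂ) (m d : ℕ) : Prop :=
  Module.finrank ℂ ↥(sys P d (fun _ => m)) = (d + 2).choose 2 - n * (m + 1).choose 2

/-- `A` is the orbit of one irreducible curve: `A` is irreducible, or the product of `n` irreducible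
forms of one degree `e`, where the form `G i` has multiplicity `x` at the point `i` and `y ≠ x` at the
other points. -/
def OrbitProduct {n : ℕ} (P : Fin n → Fin 2 → ℂ) (m d : ℕ) (A : MvPolynomial (Fin 3) ℂ) : Prop :=
  Irreducible A ∨ ∃ (e y x : ℕ) (G : Fin n → MvPolynomial (Fin 3) ℂ), x ≠ y ∧ n * e = d ∧
    (n - 1) * y + x = m ∧ A = ∏ i, G i ∧ ∀ i, Curve P (G i) e (fun j => if j = i then x else y)

/-- The dimension is one instead of zero, in a degree divisible by three just below the threshold. -/
def OneInsteadOfZero {n : ℕ} (P : Fin n → Fin 2 → ℂ) (m d : ℕ) : Prop :=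
  3 ∣ d ∧ √(n : ℝ) * m ≤ d ∧ 2 * (d : ℝ) + 3 < √(n : ℝ) * (2 * m + 1) ∧
    (d + 2).choose 2 ≤ n * (m + 1).choose 2 ∧ Module.finrank ℂ ↥(sys P d (fun _ => m)) = 1

theorem exp_iff {n : ℕ} {P : Fin n → Fin 2 → ℂ} {m d : ℕ} :
    H932R3.ExpDim ℂ (fun _ => m) P d ↔ Expected P m d := by
  have hc : ∑ _j : Fin n, (m + 1).choose 2 = n * (m + 1).choose 2 := by
    rw [Finset.sum_const, Finset.card_univ, Fintype.card_fin, smul_eq_mul]
  unfold H932R3.ExpDim Expected
  rw [hc]
  exact Iff.rfl

theorem sp_exp {n : ℕ} {P : Fin n → Fin 2 → ℂ} {m d : ℕ} : Sp P d m ↔ ¬ Expected P m d := by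
  rw [sp_iff, exp_iff]

theorem result (n : ℕ) (hn : n = 11 ∨ n = 15) :
    (∀ m : ℕ, 1 ≤ m → ∃ d₀ : ℕ, ∃ F : MvPolynomial (Fin n × Fin 2) ℂ, F ≠ 0 ∧
      ∀ P : Fin n → Fin 2 → ℂ, MvPolynomial.eval (fun ij : Fin n × Fin 2 => P ij.1 ij.2) F ≠ 0 →
        (∀ d : ℕ, d ≠ d₀ → Expected P m d) ∧ (Expected P m d₀ ∨ OneInsteadOfZero P m d₀)) ∧
    (∃ Z : ℕ → MvPolynomial (Fin n × Fin 2) ℂ, (∀ k, Z k ≠ 0) ∧
      ∀ P : Fin n → Fin 2 → ℂ,
        (∀ k, MvPolynomial.eval (fun ij : Fin n × Fin 2 => P ij.1 ij.2) (Z k) ≠ 0) →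
        ∀ m d : ℕ, ¬ Expected P m d →
          ∃ m₀ d₀ : ℕ, 1 ≤ m₀ ∧ m₀ ≤ m ∧ d₀ ≤ d ∧ OneInsteadOfZero P m₀ d₀ ∧
            (∀ e, Expected P m₀ e ↔ e ≠ d₀) ∧
            ∃ A ∈ sys P d₀ (fun _ => m₀), A ≠ 0 ∧ (∀ i, A ∉ pt (P i) ^ (m₀ + 1)) ∧
              OrbitProduct P m₀ d₀ A) := by
  have hn10 : 10 ≤ n := by omega
  constructor
  · intro m hm
    obtain ⟨F, hF, hF'⟩ := Pool.Agent.X157.D.main hn hm
    refine ⟨TH641.NW.dcrit n m, F.map (algebraMap ℚ ℂ), H932R3.map_ne_zero_of hF, fun P hP => ?_⟩
    rw [MvPolynomial.eval_map] at hP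
    obtain ⟨h1, h2⟩ := hF' P hP
    refine ⟨fun d hd => exp_iff.1 (h1 d hd), ?_⟩
    rcases h2 (TH641.NW.dcrit n m) with h3 | h3
    · exact Or.inl (exp_iff.1 h3)
    · exact Or.inr h3
  · obtain ⟨Z, hZ, h⟩ := SH.exists_fam (Fin n × Fin 2)
    refine ⟨Z, hZ, fun P hP0 m d hnot => ?_⟩
    have hP : Gen P := (h _).1 hP0
    have hsp : Sp P d m := sp_exp.2 hnot
    have hm : 1 ≤ m := by
      by_contra hcon
      have h0 : m = 0 := by omega
      subst h0
      apply hnot
      unfold Expected
      rw [SH.sys_eq, SH.vs_zero]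
      simp
    obtain ⟨m0, d0, a1, a2, a3, a4, a5⟩ := reduction hn10 hP m hm d hsp
    obtain ⟨F, hF, hF'⟩ := Pool.Agent.X157.D.main hn a1
    have hPF : MvPolynomial.aeval (fun ij : Fin n × Fin 2 => P ij.1 ij.2) F ≠ 0 := by
      intro h0
      exact hF ((algebraicIndependent_iff.1 hP) F h0)
    have hone : OneInsteadOfZero P m0 d0 := by
      rcases (hF' P hPF).2 d0 with h3 | h3
      · exact absurd (exp_iff.1 h3) (sp_exp.1 a4)
      · exact h3
    have hfin : ∀ e, Module.Finite ℂ ↥(VS (fun j => aff (P j)) (fun _ : Fin n => m0) e) :=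
      fun e => vs_fin (fun j => aff (P j)) (fun _ : Fin n => m0) e
    have hd1 : Module.finrank ℂ ↥(VS (fun j => aff (P j)) (fun _ : Fin n => m0) d0) = 1 := by
      rw [← SH.sys_eq]
      exact hone.2.2.2.2
    refine ⟨m0, d0, a1, a2, a3, hone, fun e => ⟨fun he heq => ?_, fun he => ?_⟩, ?_⟩
    · subst heq
      exact sp_exp.1 a4 he
    · by_contra hcon
      exact he (sp_unique hn10 hP a1 (sp_exp.2 hcon) a4)
    · rcases a5 with h1 | ⟨-, A, hA⟩
      · exfalso
        have := hfin d0
        obtain ⟨v, hv0, hv⟩ := finrank_eq_one_iff'.1 hd1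
        have hvhom : v.1.IsHomogeneous d0 := ((SH.mem_VS _ _ _ _).1 v.2).1
        have hd0 : 0 < d0 := by
          have h5 := hone.2.1
          by_contra hcon
          have h6 : d0 = 0 := by omega
          rw [h6] at h5
          have h7 : (1 : ℝ) ≤ m0 := by exact_mod_cast a1
          have h8 : 0 < √(n : ℝ) := Real.sqrt_pos.2 (by
            have : 0 < n := by omega
            exact_mod_cast this)
          have h9 := mul_pos h8 (show (0 : ℝ) < m0 by linarith)
          push_cast at h5
          linarith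
        have hvne : v.1 ≠ 0 := fun h0 => hv0 (Subtype.ext h0)
        have hu : ¬ IsUnit v.1 := by
          intro hu
          have h6 := (MvPolynomial.isUnit_iff_totalDegree_of_isReduced.1 hu).2
          rw [hvhom.totalDegree hvne] at h6
          omega
        obtain ⟨G', hG', hd⟩ := WfDvdMonoid.exists_irreducible_factor hu hvne
        obtain ⟨F', hF1, hF2⟩ := h1 G' hG'
        obtain ⟨c, hc⟩ := hv ⟨F', hF1⟩
        apply hF2
        have h7 : F' = c • v.1 := (congrArg Subtype.val hc).symm
        rw [h7, MvPolynomial.smul_eq_C_mul]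
        exact Dvd.dvd.mul_left hd _
      · refine ⟨A, ?_, hA.ne, fun i hi => ?_, ?_⟩
        · rw [SH.sys_eq]
          exact (SH.mem_VS _ _ _ _).2 ⟨hA.hom, fun j => (hA.ord j).1⟩
        · exact (hA.ord i).2 ((t_link ℂ (P i) (m0 + 1) A d0 hA.hom).2 hi)
        · rcases hA.orb with h2 | ⟨e, y, x, G, g1, g2, g3, g4, g5⟩
          · exact Or.inl h2
          · exact Or.inr ⟨e, y, x, G, g1, g2.symm, g3.symm, g4, fun i => SH.curve_iff.2 (g5 i)⟩

end Pool.Agent.Results.MP_d03834_ag.ElevenAndFifteenPoints
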