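import Pool.Agent.X157.W.Min
import Pool.Agent.TH167.SH.Fam

set_option autoImplicit false

/-!
# Uniform fat points: every counterexample contains one without fixed components, or the orbit of
one irreducible curve

Let `n ≥ 10`, let `P` be `n` very general points of the complex projective plane and let `I_(m, d)`
be the space of the forms of degree `d` with multiplicity at least `m` at the points. If the
dimension of `I_(m, d)` is not the expected one, then there are `1 ≤ m₀ ≤ m` and `d₀ ≤ d` such that

* the dimension of `I_(m₀, e)` is the expected one if and only if `e ≠ d₀`, and `I_(m₀, e) = 0` for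
  `e < d₀`;
* EITHER no nonconstant form divides all elements of `I_(m₀, d₀)`, OR `I_(m₀, d₀)` is one
  dimensional, spanned by a form `A` with multiplicity exactly `m₀` at all points, and `A` is
  irreducible or the product of `n` irreducible forms `G i` of one degree `e`, `n e = d₀`, where `G i`
  has multiplicity `x` at the point `i` and `y ≠ x` at the other points, `(n - 1) y + x = m₀`.

So the conjecture for `n` points holds for all multiplicities if and only if it holds for the
systems without fixed components and for the symmetric orbits of single irreducible curves.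

Proof: the product `A` of the conjugates of a common irreducible factor divides all elements and is
alone in its class (automorphisms of the complex numbers which permute the points); if the classes
of `A` and of the quotient are not special, then by Riemann-Roch and Nagata's inequality (starting
result) the given system is not special.
-/

namespace Pool.Agent.Results.MP_d03834_ag.ReductionToOrbits

open MvPolynomial Pool.Agent.TH167 Pool.Agent.TH167.SHDefs Pool.Agent.X157.W
  Pool.Agent.W609.CR

/-- The space of the forms of degree `d` with multiplicity at least `m` at all points has the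
expected dimension. -/
def Expected {n : ℕ} (P : Fin n → Fin 2 → ℂ) (m d : ℕ) : Prop :=
  Module.finrank ℂ ↥(sys P d (fun _ => m)) = (d + 2).choose 2 - n * (m + 1).choose 2

/-- `A` is the orbit of one irreducible curve: `A` is irreducible, or the product of `n` irreducible
forms of one degree `e`, where the form `G i` has multiplicity `x` at the point `i` and `y ≠ x` at the
other points. -/
def OrbitProduct {n : ℕ} (P : Fin n → Fin 2 → ℂ) (m d : ℕ) (A : MvPolynomial (Fin 3) ℂ) : Prop :=
  Irreducible A ∨ ∃ (e y x : ℕ) (G : Fin n → MvPolynomial (Fin 3) ℂ), x ≠ y ∧ n * e = d ∧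
    (n - 1) * y + x = m ∧ A = ∏ i, G i ∧ ∀ i, Curve P (G i) e (fun j => if j = i then x else y)

theorem sp_exp {n : ℕ} {P : Fin n → Fin 2 → ℂ} {m d : ℕ} : Sp P d m ↔ ¬ Expected P m d := by
  rw [sp_iff]
  have hc : ∑ _j : Fin n, (m + 1).choose 2 = n * (m + 1).choose 2 := by
    rw [Finset.sum_const, Finset.card_univ, Fintype.card_fin, smul_eq_mul]
  unfold H932R3.ExpDim Expected
  rw [hc]
  exact Iff.rfl

theorem result (n : ℕ) (hn : 10 ≤ n) :
    ∃ Z : ℕ → MvPolynomial (Fin n × Fin 2) ℂ, (∀ k, Z k ≠ 0) ∧
      ∀ P : Fin n → Fin 2 → ℂ,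
        (∀ k, MvPolynomial.eval (fun ij : Fin n × Fin 2 => P ij.1 ij.2) (Z k) ≠ 0) →
        ∀ m d : ℕ, ¬ Expected P m d →
          ∃ m₀ d₀ : ℕ, 1 ≤ m₀ ∧ m₀ ≤ m ∧ d₀ ≤ d ∧
            (∀ e, Expected P m₀ e ↔ e ≠ d₀) ∧ (∀ e < d₀, sys P e (fun _ => m₀) = ⊥) ∧
            ((∀ G : MvPolynomial (Fin 3) ℂ, (∀ F ∈ sys P d₀ (fun _ => m₀), G ∣ F) → IsUnit G) ∨
              (Module.finrank ℂ ↥(sys P d₀ (fun _ => m₀)) = 1 ∧
                ∃ A ∈ sys P d₀ (fun _ => m₀), A ≠ 0 ∧ (∀ i, A ∉ pt (P i) ^ (m₀ + 1)) ∧
                  OrbitProduct P m₀ d₀ A)) := by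
  obtain ⟨Z, hZ, h⟩ := SH.exists_fam (Fin n × Fin 2)
  refine ⟨Z, hZ, fun P hP0 m d hnot => ?_⟩
  have hP : Gen P := (h _).1 hP0
  have hsp : Sp P d m := sp_exp.2 hnot
  have hm : 1 ≤ m := by
    by_contra hcon
    have h0 : m = 0 := by omega
    subst h0
    apply hnot
    unfold Expected
    rw [SH.sys_eq, SH.vs_zero]
    simp
  obtain ⟨m0, d0, a1, a2, a3, a4, a5⟩ := reduction hn hP m hm d hsp
  have hfin : ∀ e, Module.Finite ℂ ↥(VS (fun j => aff (P j)) (fun _ : Fin n => m0) e) :=
    fun e => vs_fin (fun j => aff (P j)) (fun _ : Fin n => m0) e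
  refine ⟨m0, d0, a1, a2, a3, fun e => ⟨fun he heq => ?_, fun he => ?_⟩, fun e he => ?_, ?_⟩
  · subst heq
    exact sp_exp.1 a4 he
  · by_contra hcon
    exact he (sp_unique hn hP a1 (sp_exp.2 hcon) a4)
  · rw [SH.sys_eq]
    have h1 := sp_below hn hP a1 a4 he
    have := hfin e
    exact Submodule.finrank_eq_zero.1 h1
  · rcases a5 with h1 | ⟨h1, A, hA⟩
    · left
      intro G hG
      by_contra hu
      have hG0 : G ≠ 0 := by
        intro h0
        have := hfin d0
        have hnt := Module.finrank_pos_iff.1 a4.1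
        obtain ⟨⟨F, hF⟩, hF0⟩ := exists_ne (0 : ↥(VS (fun j => aff (P j)) (fun _ => m0) d0))
        have h2 := hG F (by rw [SH.sys_eq]; exact hF)
        rw [h0, zero_dvd_iff] at h2
        exact hF0 (Subtype.ext h2)
      obtain ⟨G', hG', hd⟩ := WfDvdMonoid.exists_irreducible_factor hu hG0
      obtain ⟨F, hF, hF'⟩ := h1 G' hG'
      rw [← SH.sys_eq] at hF
      exact hF' (dvd_trans hd (hG F hF))
    · right
      rw [SH.sys_eq]
      refine ⟨h1, A, (SH.mem_VS _ _ _ _).2 ⟨hA.hom, fun j => (hA.ord j).1⟩, hA.ne, fun i hi => ?_,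
        ?_⟩
      · exact (hA.ord i).2 ((t_link ℂ (P i) (m0 + 1) A d0 hA.hom).2 hi)
      · rcases hA.orb with h2 | ⟨e, y, x, G, g1, g2, g3, g4, g5⟩
        · exact Or.inl h2
        · exact Or.inr ⟨e, y, x, G, g1, g2.symm, g3.symm, g4, fun i => SH.curve_iff.2 (g5 i)⟩

end Pool.Agent.Results.MP_d03834_ag.ReductionToOrbits
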