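import Mathlib
import Pool.Agent.Results.MP_d03834_ag.EffectiveEveryField
import Pool.Agent.X134.UD.Seq
import Pool.Agent.X134.UD.Sparse
import Pool.Agent.X134.UD.Primes

set_option autoImplicit false

/-!
# The uniform Harbourne-Hirschowitz conjecture in ALL degrees: squares, primes and sparse sequences of multiplicities

Let `n ≥ 10`. Call `m ≥ 1` good if there is an explicitly bounded polynomial `Φ ≠ 0` with integral coefficients in
the coordinates of `n` points such that for every field, every `n` points with `Φ(Y) ≠ 0` and EVERY degree the space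
of the curves with multiplicity at least `m` at the points has the expected dimension, and `Φ ≠ 0` at the explicit
points `Y i = (exp (2 ^ (2 i / 2 n)) : exp (2 ^ ((2 i + 1) / 2 n)) : 1)`, which do not depend on `m`. For the settled
`n` (`n ≥ 37`, `n = 13`, `n = 21`, squares) all `m` are good by the starting result `EffectiveEveryField`. For the
other `n`, the `m` which are not good have

* upper density at most `bad n < 1`, `bad 11 < 0.053`, `bad 15 < 0.146`, `bad 10 < 0.163`, and the same bound holds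
* along EVERY sequence `m = x_j` for which the Weyl sums of `(√n / 3) x_j` are `o(N)`;
* for the values of EVERY nonconstant integral polynomial (the squares, the cubes, ...);
* for the PRIMES (the density is taken among the primes);
* for the sequences `⌊α j ^ c⌋`, `c > 1`, which are arbitrarily sparse: for all `α > 0` outside one set `E` of
  Hausdorff dimension less than `1`, for all `n` at once.

Proof. If `m` is not good, there is an integer within a bounded distance from `√n m + (√n - 3) / 2`, for `n = 11, 15`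
from `√n m / 3`; Weyl's criterion, Weyl's theorem for polynomials, Vinogradov's theorem and the covering argument.
-/

namespace Pool.Agent.Results.MP_d03834_ag.SparseMultiplicities

open EffectiveEveryField Pool.Agent.X134.UD
open Pool.Agent.H534R3.UDist (Weyl)

/-- the dimension is the expected one in EVERY degree, over every field, for all points outside one hypersurface with
an explicitly bounded integral equation, and at the explicit real points -/
def Good (n m : ℕ) : Prop :=
  ∃ Φ : MvPolynomial (Fin n × Fin 2) ℤ, Φ ≠ 0 ∧ Φ.totalDegree ≤ degreeBound n m ∧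
    height Φ ≤ heightBound n m ∧
    (∀ (L : Type) [Field L] (Y : Fin n → Fin 2 → L), value Φ Y ≠ 0 → ∀ d : ℕ, Expected Y m d) ∧
    value Φ (realPoints n) ≠ 0

/-- `m` is positive and not good -/
def Bad (n m : ℕ) : Prop := 1 ≤ m ∧ ¬ Good n m

/-- the numbers of points for which everything is known -/
def Settled (n : ℕ) : Prop := 37 ≤ n ∨ n = 13 ∨ n = 21 ∨ IsSquare n

open Classical in
/-- the bound for the proportion -/
noncomputable def bad (n : ℕ) : ℝ :=
  if Settled n then 0 else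
    if n = 11 ∨ n = 15 then (Real.sqrt n - 3) / 6 else
      (min (Real.sqrt n - 3) (2 / 3 + 9 / (4 * Real.sqrt n)) +
        min (Real.sqrt n - 3) (2 / 3 + 1 / (4 * Real.sqrt n))) / 2

theorem bad_open {n m : ℕ} (hn : 10 ≤ n) (h : Bad n m) : ∃ d, Open n m d := by
  obtain ⟨hm, hG⟩ := h
  obtain ⟨A, -, hA, Φ, h1, h2, h3, h4, -, -, -, h5⟩ := EffectiveEveryField.result n m hn hm
  by_contra hcon
  push Not at hcon
  exact hG ⟨Φ, h1, h2, h3, fun L _ Y hY d => h4 L Y hY d (fun hd => hcon d (hA d hd)), h5⟩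

theorem settled {n : ℕ} (hn : 10 ≤ n) (hs : Settled n) (m : ℕ) : ¬ Bad n m := by
  intro h
  obtain ⟨d, hd⟩ := bad_open hn h
  exact hd.1 hs

theorem sqrt_ge {n : ℕ} (hn : 10 ≤ n) : 3 ≤ Real.sqrt n := by
  have hnR : (10 : ℝ) ≤ n := by exact_mod_cast hn
  exact Real.le_sqrt_of_sq_le (by norm_num; linarith)

theorem window_all {n : ℕ} (hn : 10 ≤ n) (m : ℕ) (h : Bad n m) :
    ∃ D : ℤ, Real.sqrt n * m + (Real.sqrt n - 3) / 2 -
        (min (Real.sqrt n - 3) (2 / 3 + 9 / (4 * Real.sqrt n))) / 2 ≤ D ∧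
      (D : ℝ) ≤ Real.sqrt n * m + (Real.sqrt n - 3) / 2 +
        (min (Real.sqrt n - 3) (2 / 3 + 1 / (4 * Real.sqrt n))) / 2 := by
  obtain ⟨d, -, h1, h2, -⟩ := bad_open hn h
  refine ⟨d, ?_, ?_⟩ <;> push_cast <;> linarith

theorem window_three {n : ℕ} (hn : n = 11 ∨ n = 15) (m : ℕ) (h : Bad n m) :
    ∃ D : ℤ, Real.sqrt n / 3 * m + 0 - 0 ≤ D ∧
      (D : ℝ) ≤ Real.sqrt n / 3 * m + 0 + (Real.sqrt n - 3) / 6 := by
  obtain ⟨d, -, -, -, h3⟩ := bad_open (by omega) h
  obtain ⟨⟨D, hD⟩, h1, h2⟩ := h3 hn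
  have e : (d : ℝ) = 3 * (D : ℝ) := by exact_mod_cast hD
  rw [e] at h1 h2
  refine ⟨D, ?_, ?_⟩ <;> push_cast <;> linarith

theorem weyl_three {y : ℕ → ℕ} {s : ℝ} (h : Weyl (fun j => s / 3 * y j)) : Weyl (fun j => s * y j) := by
  intro k hk
  have h1 := h (3 * k) (by omega)
  refine h1.congr fun N => ?_
  congr 2
  refine Finset.sum_congr rfl fun j _ => ?_
  congr 1
  push_cast
  ring

theorem badly_three {s : ℝ} (h : BadlyApprox s) : BadlyApprox (s / 3) := by
  obtain ⟨C, hC, H⟩ := h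
  refine ⟨C / 3, by positivity, fun q c hq => ?_⟩
  have h1 := H q (3 * c) hq
  have hq0 : (0 : ℝ) < q := by exact_mod_cast hq
  have e : s / 3 - c / q = (s - ((3 * c : ℤ) : ℝ) / q) / 3 := by
    push_cast
    ring
  rw [e, abs_div, abs_of_pos (by norm_num : (0 : ℝ) < 3), div_div, mul_comm (3 : ℝ), ← div_div]
  exact div_le_div_of_nonneg_right h1 (by norm_num)

theorem upperLE_empty {P : ℕ → Prop} (h : ∀ n, ¬ P n) : UpperLE P 0 := by
  intro δ hδ
  refine ⟨0, fun N _ => ?_⟩
  have e : {n : ℕ | n < N ∧ P n} = ∅ := by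
    rw [Set.eq_empty_iff_forall_notMem]
    rintro n ⟨-, hn⟩
    exact h n hn
  rw [e, Set.ncard_empty, Nat.cast_zero]
  exact mul_nonneg (by linarith) (Nat.cast_nonneg _)

theorem upperLEPrimes_empty {P : ℕ → Prop} (h : ∀ n, ¬ P n) : UpperLEPrimes P 0 := by
  intro δ hδ
  refine ⟨0, fun N _ => ?_⟩
  have e : {p : ℕ | p ≤ N ∧ p.Prime ∧ P p} = ∅ := by
    rw [Set.eq_empty_iff_forall_notMem]
    rintro n ⟨-, -, hn⟩
    exact h n hn
  rw [e, Set.ncard_empty, Nat.cast_zero]
  exact mul_nonneg (by linarith) (Nat.cast_nonneg _)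

theorem bad_nonneg {n : ℕ} (hn : 10 ≤ n) : 0 ≤ bad n := by
  have h3 := sqrt_ge hn
  have h4 : 0 < Real.sqrt n := by linarith
  unfold bad
  split_ifs
  · exact le_rfl
  · linarith
  · have h1 : 0 ≤ min (Real.sqrt n - 3) (2 / 3 + 9 / (4 * Real.sqrt n)) :=
      le_min (by linarith) (by positivity)
    have h2 : 0 ≤ min (Real.sqrt n - 3) (2 / 3 + 1 / (4 * Real.sqrt n)) :=
      le_min (by linarith) (by positivity)
    linarith

theorem main {n : ℕ} (hn : 10 ≤ n) :
    ((∀ x : ℕ → ℕ, Weyl (fun j => Real.sqrt n / 3 * x j) → UpperLE (fun j => Bad n (x j)) (bad n)) ∧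
      (∀ P : Polynomial ℤ, 1 ≤ P.natDegree →
        UpperLE (fun j => ∃ m : ℕ, (m : ℤ) = P.eval (j : ℤ) ∧ Bad n m) (bad n)) ∧
      UpperLE (Bad n) (bad n)) ∧ UpperLEPrimes (Bad n) (bad n) := by
  have h3 := sqrt_ge hn
  have h4 : 0 < Real.sqrt n := by linarith
  by_cases hs : Settled n
  · have e : bad n = 0 := by
      unfold bad
      rw [if_pos hs]
    have h0 := settled hn hs
    rw [e]
    exact ⟨⟨fun x _ => upperLE_empty fun j => h0 _,
      fun P _ => upperLE_empty fun j => by rintro ⟨m, -, hm⟩; exact h0 m hm, upperLE_empty h0⟩,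
      upperLEPrimes_empty h0⟩
  have hsq : ¬ IsSquare n := fun h => hs (Or.inr (Or.inr (Or.inr h)))
  have hirr : Irrational (Real.sqrt n) := irrational_sqrt_natCast_iff.2 hsq
  by_cases h11 : n = 11 ∨ n = 15
  · have e : bad n = 0 + (Real.sqrt n - 3) / 6 := by
      unfold bad
      rw [if_neg hs, if_pos h11, zero_add]
    have hirr3 : Irrational (Real.sqrt n / 3) := by
      have := hirr.div_natCast (m := 3) (by norm_num)
      exact_mod_cast this
    rw [e]
    exact ⟨sequences hirr3 (by linarith) (Bad n) (window_three h11),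
      primes (badly_three (badly_sqrt hsq)) (by linarith) (Bad n) (window_three h11)⟩
  · have e : bad n = (min (Real.sqrt n - 3) (2 / 3 + 9 / (4 * Real.sqrt n))) / 2 +
        (min (Real.sqrt n - 3) (2 / 3 + 1 / (4 * Real.sqrt n))) / 2 := by
      unfold bad
      rw [if_neg hs, if_neg h11]
      ring
    have h0 := bad_nonneg hn
    rw [e] at h0 ⊢
    obtain ⟨a1, a2, a3⟩ := sequences hirr h0 (Bad n) (window_all hn)
    exact ⟨⟨fun x hx => a1 x (weyl_three hx), a2, a3⟩,
      primes (badly_sqrt hsq) h0 (Bad n) (window_all hn)⟩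

theorem bad_lt {n : ℕ} (hn : 10 ≤ n) : bad n < 1 := by
  obtain ⟨s, hsdef⟩ : ∃ s, s = Real.sqrt n := ⟨_, rfl⟩
  have hs3 : 3 ≤ s := by rw [hsdef]; exact sqrt_ge hn
  have hs0 : 0 < s := by linarith
  unfold bad
  rw [← hsdef]
  split_ifs with h1 h2
  · exact one_pos
  · have h3 : s < 4 := by
      rw [hsdef, Real.sqrt_lt' (by norm_num)]
      rcases h2 with rfl | rfl <;> norm_num
    linarith
  · rcases le_or_gt (3.9 : ℝ) s with h | h
    · have h2 : 9 / (4 * s) < 0.6 := by
        rw [div_lt_iff₀ (by positivity)]; linarith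
      have h3 : 1 / (4 * s) < 0.065 := by
        rw [div_lt_iff₀ (by positivity)]; linarith
      have h4 := min_le_right (s - 3) (2 / 3 + 9 / (4 * s))
      have h5 := min_le_right (s - 3) (2 / 3 + 1 / (4 * s))
      linarith
    · have h4 := min_le_left (s - 3) (2 / 3 + 9 / (4 * s))
      have h5 := min_le_left (s - 3) (2 / 3 + 1 / (4 * s))
      linarith

theorem not_square {n : ℕ} (h1 : 3 ^ 2 < n) (h2 : n < 4 ^ 2) : ¬ IsSquare n := by
  rintro ⟨a, rfl⟩
  have h3 : 3 < a := by
    by_contra hcon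
    have : a ≤ 3 := by omega
    have := Nat.mul_le_mul this this
    omega
  have h4 : a < 4 := by
    by_contra hcon
    have : 4 ≤ a := by omega
    have := Nat.mul_le_mul this this
    omega
  omega

theorem bad_ten : bad 10 < 0.163 := by
  have hs : ¬ Settled 10 := by
    rintro (h | h | h | h)
    · omega
    · omega
    · omega
    · exact not_square (by norm_num) (by norm_num) h
  have h1 : Real.sqrt ((10 : ℕ) : ℝ) < 3.163 := by
    rw [Real.sqrt_lt' (by norm_num)]
    norm_num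
  unfold bad
  rw [if_neg hs, if_neg (by omega)]
  have h2 := min_le_left (Real.sqrt ((10 : ℕ) : ℝ) - 3) (2 / 3 + 9 / (4 * Real.sqrt ((10 : ℕ) : ℝ)))
  have h3 := min_le_left (Real.sqrt ((10 : ℕ) : ℝ) - 3) (2 / 3 + 1 / (4 * Real.sqrt ((10 : ℕ) : ℝ)))
  linarith

theorem bad_eleven : bad 11 < 0.053 := by
  have hs : ¬ Settled 11 := by
    rintro (h | h | h | h)
    · omega
    · omega
    · omega
    · exact not_square (by norm_num) (by norm_num) h
  have h1 : Real.sqrt ((11 : ℕ) : ℝ) < 3.317 := by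
    rw [Real.sqrt_lt' (by norm_num)]
    norm_num
  unfold bad
  rw [if_neg hs, if_pos (Or.inl rfl)]
  linarith

theorem bad_fifteen : bad 15 < 0.146 := by
  have hs : ¬ Settled 15 := by
    rintro (h | h | h | h)
    · omega
    · omega
    · omega
    · exact not_square (by norm_num) (by norm_num) h
  have h1 : Real.sqrt ((15 : ℕ) : ℝ) < 3.873 := by
    rw [Real.sqrt_lt' (by norm_num)]
    norm_num
  unfold bad
  rw [if_neg hs, if_pos (Or.inr rfl)]
  linarith

theorem result :
    (∀ n : ℕ, 10 ≤ n →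
      (∀ x : ℕ → ℕ, Weyl (fun j => Real.sqrt n / 3 * x j) → UpperLE (fun j => Bad n (x j)) (bad n)) ∧
      (∀ P : Polynomial ℤ, 1 ≤ P.natDegree →
        UpperLE (fun j => ∃ m : ℕ, (m : ℤ) = P.eval (j : ℤ) ∧ Bad n m) (bad n)) ∧
      UpperLEPrimes (Bad n) (bad n)) ∧
    (∀ c : ℝ, 1 < c → ∃ κ : ℝ, 0 < κ ∧ κ < 1 ∧ ∃ E : Set ℝ, dimH E ≤ ENNReal.ofReal (1 - κ) ∧
      ∀ α : ℝ, 0 < α → α ∉ E → ∀ n : ℕ, 10 ≤ n →
        UpperLE (fun j => Bad n ⌊α * (j : ℝ) ^ c⌋₊) (bad n)) ∧
    (∀ n : ℕ, 10 ≤ n → bad n < 1) ∧ bad 10 < 0.163 ∧ bad 11 < 0.053 ∧ bad 15 < 0.146 := by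
  refine ⟨fun n hn => ?_, fun c hc => ?_, fun n hn => bad_lt hn, bad_ten, bad_eleven, bad_fifteen⟩
  · obtain ⟨⟨a1, a2, -⟩, a4⟩ := main hn
    exact ⟨a1, a2, a4⟩
  · obtain ⟨κ, hκ0, hκ1, H⟩ := sparse c hc
    obtain ⟨E, hE, hh⟩ := H ℕ Bad
    exact ⟨κ, hκ0, hκ1, E, hE, fun α hα hαE n hn =>
      hh α hα hαE n _ (bad_nonneg hn) (main hn).1.2.2⟩

end Pool.Agent.Results.MP_d03834_ag.SparseMultiplicities
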